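import Mathlib

set_option autoImplicit false

namespace Pool.Agent.Results.MP_29e9a5_co.StarSpeed

open Finset Set

/-! ### The game on a star -/

/-- The star with `k` legs of lengths `ℓ i`, as the set of points of `ℝ^k` with at most one nonzero
coordinate, the `i`-th coordinate lying in `[0, ℓ i]`.  The origin is the centre. -/
def Star (k : ℕ) (ℓ : Fin k → ℝ) : Set (Fin k → ℝ) :=
  {x | (∀ i, 0 ≤ x i ∧ x i ≤ ℓ i) ∧ ∀ i j, i ≠ j → x i = 0 ∨ x j = 0}

/-- The path metric of the star (the `ℓ¹` distance): `|a - b|` for two points on the same leg and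
`a + b` for points on different legs. -/
noncomputable def starDist {k : ℕ} (x y : Fin k → ℝ) : ℝ := ∑ i, |x i - y i|

/-- `f : [0, T] → S_k` is Lipschitz with constant `v`. -/
def IsMotion (k : ℕ) (ℓ : Fin k → ℝ) (v T : ℝ) (f : ℝ → Fin k → ℝ) : Prop :=
  (∀ t ∈ Icc 0 T, f t ∈ Star k ℓ) ∧
    ∀ t ∈ Icc 0 T, ∀ t' ∈ Icc 0 T, starDist (f t) (f t') ≤ v * |t - t'|

/-- The blind cop of speed `s` has a winning strategy on the star with leg lengths `ℓ`. -/
def CopWins (k : ℕ) (ℓ : Fin k → ℝ) (s : ℝ) : Prop :=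
  ∃ T : ℝ, 0 < T ∧ ∃ f : ℝ → Fin k → ℝ, IsMotion k ℓ s T f ∧
    ∀ g : ℝ → Fin k → ℝ, IsMotion k ℓ 1 T g → ∃ t ∈ Icc 0 T, f t = g t

/-! ### The oscillating half strategy -/

section Osc

variable {k : ℕ} (lam s : ℝ) (ℓ : Fin k → ℝ) (e : ℤ → Fin k)

/-- index of the excursion going on at time `t` -/
noncomputable def idx (t : ℝ) : ℤ :=
  if h : 0 < t ∧ 1 < lam then (exists_mem_Ico_zpow h.1 h.2).choose else 0

lemma idx_spec {lam : ℝ} (hlam : 1 < lam) {t : ℝ} (ht : 0 < t) :
    lam ^ (idx lam t) ≤ t ∧ t < lam ^ (idx lam t + 1) := by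
  unfold idx
  rw [dif_pos ⟨ht, hlam⟩]
  exact (exists_mem_Ico_zpow ht hlam).choose_spec

lemma idx_eq {lam : ℝ} (hlam : 1 < lam) {t : ℝ} {n : ℤ} (h1 : lam ^ n ≤ t) (h2 : t < lam ^ (n + 1)) :
    idx lam t = n := by
  have h0 : (0 : ℝ) < lam ^ n := zpow_pos (by linarith) n
  have ht : 0 < t := lt_of_lt_of_le h0 h1
  obtain ⟨h3, h4⟩ := idx_spec hlam ht
  have h5 : idx lam t < n + 1 := (zpow_lt_zpow_iff_right₀ hlam).1 (lt_of_le_of_lt h3 h2)
  have h6 : n < idx lam t + 1 := (zpow_lt_zpow_iff_right₀ hlam).1 (lt_of_le_of_lt h1 h4)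
  omega

/-- depth of the cop at time `t` -/
noncomputable def dep (t : ℝ) : ℝ :=
  if 0 < t then
    min (ℓ (e (idx lam t))) (s * min (t - lam ^ (idx lam t)) (lam ^ (idx lam t + 1) - t))
  else 0

/-- the position of the cop at time `t` -/
noncomputable def osc (t : ℝ) : Fin k → ℝ :=
  fun i => if i = e (idx lam t) then dep lam s ℓ e t else 0

variable {lam s ℓ e}

lemma dep_nonneg (hlam : 1 < lam) (hs : 0 < s) (hℓ : ∀ i, 0 < ℓ i) (t : ℝ) :
    0 ≤ dep lam s ℓ e t := by
  unfold dep
  split_ifs with ht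
  · obtain ⟨h1, h2⟩ := idx_spec hlam ht
    refine le_min (hℓ _).le (mul_nonneg hs.le (le_min (by linarith) (by linarith)))
  · exact le_rfl

lemma dep_le (hℓ : ∀ i, 0 < ℓ i) (t : ℝ) : dep lam s ℓ e t ≤ ℓ (e (idx lam t)) := by
  unfold dep
  split_ifs with ht
  · exact min_le_left _ _
  · exact (hℓ _).le

lemma osc_mem (hlam : 1 < lam) (hs : 0 < s) (hℓ : ∀ i, 0 < ℓ i) (t : ℝ) :
    osc lam s ℓ e t ∈ Star k ℓ := by
  refine ⟨fun i => ?_, fun i j hij => ?_⟩
  · unfold osc
    split_ifs with h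
    · rw [h]; exact ⟨dep_nonneg hlam hs hℓ t, dep_le hℓ t⟩
    · exact ⟨le_rfl, (hℓ i).le⟩
  · unfold osc
    by_cases h : i = e (idx lam t)
    · right; rw [if_neg (fun h' => hij (h.trans h'.symm))]
    · left; rw [if_neg h]

lemma osc_zero : osc lam s ℓ e 0 = 0 := by
  funext i
  unfold osc dep
  simp

lemma dep_le_left (_hlam : 1 < lam) (hs : 0 < s) {t : ℝ} (ht : 0 < t) :
    dep lam s ℓ e t ≤ s * (t - lam ^ (idx lam t)) := by
  unfold dep
  rw [if_pos ht]
  exact le_trans (min_le_right _ _) (mul_le_mul_of_nonneg_left (min_le_left _ _) hs.le)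

lemma dep_le_right (hs : 0 < s) {t : ℝ} (ht : 0 < t) :
    dep lam s ℓ e t ≤ s * (lam ^ (idx lam t + 1) - t) := by
  unfold dep
  rw [if_pos ht]
  exact le_trans (min_le_right _ _) (mul_le_mul_of_nonneg_left (min_le_right _ _) hs.le)

/-- distance of two oscillating positions is at most the sum of the depths -/
lemma starDist_osc_le (hlam : 1 < lam) (hs : 0 < s) (hℓ : ∀ i, 0 < ℓ i) (t t' : ℝ) :
    starDist (osc lam s ℓ e t) (osc lam s ℓ e t') ≤ dep lam s ℓ e t + dep lam s ℓ e t' := by
  unfold starDist osc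
  have h1 := dep_nonneg (e := e) hlam hs hℓ t
  have h2 := dep_nonneg (e := e) hlam hs hℓ t'
  calc ∑ i, |(if i = e (idx lam t) then dep lam s ℓ e t else 0) -
        (if i = e (idx lam t') then dep lam s ℓ e t' else 0)|
      ≤ ∑ i, ((if i = e (idx lam t) then dep lam s ℓ e t else 0) +
        (if i = e (idx lam t') then dep lam s ℓ e t' else 0)) := by
        apply Finset.sum_le_sum
        intro i _
        refine le_trans (abs_sub _ _) ?_
        rw [abs_of_nonneg (by split_ifs <;> first | exact h1 | exact le_rfl),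
          abs_of_nonneg (by split_ifs <;> first | exact h2 | exact le_rfl)]
    _ = dep lam s ℓ e t + dep lam s ℓ e t' := by
        rw [Finset.sum_add_distrib]
        simp

lemma starDist_osc_same {t t' : ℝ} (h : idx lam t = idx lam t') :
    starDist (osc lam s ℓ e t) (osc lam s ℓ e t') = |dep lam s ℓ e t - dep lam s ℓ e t'| := by
  unfold starDist osc
  rw [h]
  rw [Finset.sum_eq_single (e (idx lam t'))]
  · simp
  · intro b _ hb
    simp [hb]
  · intro h'
    exact absurd (Finset.mem_univ _) h'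

lemma osc_lipschitz_aux (hlam : 1 < lam) (hs : 0 < s) (hℓ : ∀ i, 0 < ℓ i) {t t' : ℝ}
    (ht : 0 ≤ t) (htt' : t ≤ t') :
    starDist (osc lam s ℓ e t) (osc lam s ℓ e t') ≤ s * (t' - t) := by
  rcases ht.eq_or_lt with h0 | h0
  · subst h0
    rcases htt'.eq_or_lt with h0' | h0'
    · subst h0'
      simp [starDist]
    · refine le_trans (starDist_osc_le hlam hs hℓ _ _) ?_
      have h1 : dep lam s ℓ e 0 = 0 := by simp [dep]
      rw [h1, zero_add]
      refine le_trans (dep_le_left hlam hs h0') ?_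
      have : (0 : ℝ) < lam ^ (idx lam t') := zpow_pos (by linarith) _
      exact mul_le_mul_of_nonneg_left (by linarith) hs.le
  · have h0' : 0 < t' := lt_of_lt_of_le h0 htt'
    obtain ⟨a1, a2⟩ := idx_spec hlam h0
    obtain ⟨b1, b2⟩ := idx_spec hlam h0'
    by_cases hidx : idx lam t = idx lam t'
    · rw [starDist_osc_same hidx]
      unfold dep
      rw [if_pos h0, if_pos h0', hidx]
      refine le_trans (abs_min_sub_min_le_max _ _ _ _) ?_
      rw [sub_self, abs_zero]
      refine max_le (mul_nonneg hs.le (by linarith)) ?_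
      rw [← mul_sub, abs_mul, abs_of_pos hs]
      refine mul_le_mul_of_nonneg_left ?_ hs.le
      refine le_trans (abs_min_sub_min_le_max _ _ _ _) ?_
      refine max_le ?_ ?_
      · rw [abs_le]; constructor <;> linarith
      · rw [abs_le]; constructor <;> linarith
    · have hlt : idx lam t < idx lam t' := by
        have : idx lam t < idx lam t' + 1 :=
          (zpow_lt_zpow_iff_right₀ hlam).1 (lt_of_le_of_lt (a1.trans htt') b2)
        omega
      have hle : lam ^ (idx lam t + 1) ≤ lam ^ (idx lam t') :=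
        zpow_le_zpow_right₀ hlam.le (by omega)
      refine le_trans (starDist_osc_le hlam hs hℓ _ _) ?_
      have h1 := dep_le_right (ℓ := ℓ) (e := e) (lam := lam) hs h0
      have h2 := dep_le_left (ℓ := ℓ) (e := e) hlam hs h0'
      have h3 : s * (lam ^ (idx lam t + 1) - t) + s * (t' - lam ^ (idx lam t')) ≤ s * (t' - t) := by
        rw [← mul_add]
        exact mul_le_mul_of_nonneg_left (by linarith) hs.le
      linarith

lemma starDist_comm {x y : Fin k → ℝ} : starDist x y = starDist y x := by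
  unfold starDist
  exact Finset.sum_congr rfl fun i _ => abs_sub_comm _ _

lemma osc_lipschitz (hlam : 1 < lam) (hs : 0 < s) (hℓ : ∀ i, 0 < ℓ i) {t t' : ℝ}
    (ht : 0 ≤ t) (ht' : 0 ≤ t') :
    starDist (osc lam s ℓ e t) (osc lam s ℓ e t') ≤ s * |t - t'| := by
  rcases le_total t t' with h | h
  · rw [abs_sub_comm, abs_of_nonneg (by linarith)]
    exact osc_lipschitz_aux hlam hs hℓ ht h
  · rw [starDist_comm, abs_of_nonneg (by linarith)]
    exact osc_lipschitz_aux hlam hs hℓ ht' h

lemma coord_le_starDist (x y : Fin k → ℝ) (i : Fin k) : |x i - y i| ≤ starDist x y :=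
  Finset.single_le_sum (f := fun i => |x i - y i|) (fun _ _ => abs_nonneg _) (Finset.mem_univ i)

/-- A robber who avoids the oscillating cop is not on a served leg at time `0`. -/
lemma served (hlam : 1 < lam) (hs : 0 < s) (hℓ : ∀ i, 0 < ℓ i) {m : ℕ} (hm : 0 < m)
    (hlm : lam ^ m - (1 + lam) / 2 ≤ s * (lam - 1) / 2)
    {i : Fin k} {n₀ : ℤ} (hn₀ : ∀ j : ℤ, e (n₀ + m * j) = i) {M : ℤ}
    (hM : ℓ i ≤ s * (lam - 1) / 2 * lam ^ M) {T : ℝ} (hT : lam ^ (M + m) ≤ T)
    {g : ℝ → Fin k → ℝ} (hg : IsMotion k ℓ 1 T g)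
    (havoid : ∀ t ∈ Icc 0 T, osc lam s ℓ e t ≠ g t) : g 0 i = 0 := by
  have hlam0 : 0 < lam := by linarith
  have hT0 : 0 < T := lt_of_lt_of_le (zpow_pos hlam0 _) hT
  have h0mem : (0 : ℝ) ∈ Icc 0 T := ⟨le_rfl, hT0.le⟩
  by_contra hne
  have hpos : 0 < g 0 i := lt_of_le_of_ne ((hg.1 0 h0mem).1 i).1 (Ne.symm hne)
  -- the difference of the `i`-th coordinates
  set D : ℝ → ℝ := fun t => g t i - osc lam s ℓ e t i with hD
  have hcontg : ContinuousOn (fun t => g t i) (Icc 0 T) := by
    rw [Metric.continuousOn_iff]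
    intro b hb ε hε
    refine ⟨ε, hε, fun a ha hab => ?_⟩
    rw [Real.dist_eq] at hab ⊢
    calc |g a i - g b i| ≤ starDist (g a) (g b) := coord_le_starDist _ _ _
      _ ≤ 1 * |a - b| := hg.2 a ha b hb
      _ < ε := by rw [one_mul]; exact hab
  have hcontf : ContinuousOn (fun t => osc lam s ℓ e t i) (Icc 0 T) := by
    rw [Metric.continuousOn_iff]
    intro b hb ε hε
    refine ⟨ε / s, by positivity, fun a ha hab => ?_⟩
    rw [Real.dist_eq] at hab ⊢
    calc |osc lam s ℓ e a i - osc lam s ℓ e b i|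
        ≤ starDist (osc lam s ℓ e a) (osc lam s ℓ e b) := coord_le_starDist _ _ _
      _ ≤ s * |a - b| := osc_lipschitz hlam hs hℓ ha.1 hb.1
      _ < s * (ε / s) := mul_lt_mul_of_pos_left hab hs
      _ = ε := by field_simp
  have hcontD : ContinuousOn D (Icc 0 T) := hcontg.sub hcontf
  -- positions of the cop at the middle of the excursions into leg `i`
  have hmid : ∀ n : ℤ, e n = i →
      osc lam s ℓ e ((lam ^ n + lam ^ (n + 1)) / 2) i =
        min (ℓ i) (s * (lam - 1) / 2 * lam ^ n) := by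
    intro n hn
    have hp : (0 : ℝ) < lam ^ n := zpow_pos hlam0 n
    have hsucc : lam ^ (n + 1) = lam ^ n * lam := zpow_add_one₀ hlam0.ne' n
    have hlt : lam ^ n < lam ^ (n + 1) := by rw [hsucc]; nlinarith
    have hidx : idx lam ((lam ^ n + lam ^ (n + 1)) / 2) = n :=
      idx_eq hlam (by linarith) (by linarith)
    unfold osc dep
    rw [hidx, if_pos hn.symm, if_pos (by linarith), hn]
    congr 1
    have e1 : (lam ^ n + lam ^ (n + 1)) / 2 - lam ^ n = (lam - 1) / 2 * lam ^ n := by
      rw [hsucc]; ring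
    have e2 : lam ^ (n + 1) - (lam ^ n + lam ^ (n + 1)) / 2 = (lam - 1) / 2 * lam ^ n := by
      rw [hsucc]; ring
    rw [e1, e2, min_self]
    ring
  -- if `D > 0` up to the middle of such an excursion, the robber is far out
  have hfar : ∀ n : ℤ, e n = i → (lam ^ n + lam ^ (n + 1)) / 2 ∈ Icc 0 T →
      0 < D ((lam ^ n + lam ^ (n + 1)) / 2) →
      s * (lam - 1) / 2 * lam ^ n < g ((lam ^ n + lam ^ (n + 1)) / 2) i := by
    intro n hn hmem hDpos
    simp only [hD] at hDpos
    rw [hmid n hn] at hDpos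
    have hup := ((hg.1 _ hmem).1 i).2
    rcases le_total (ℓ i) (s * (lam - 1) / 2 * lam ^ n) with h | h
    · rw [min_eq_left h] at hDpos
      linarith
    · rw [min_eq_right h] at hDpos
      linarith
  -- `D` is positive throughout
  have hDpos : ∀ t ∈ Icc 0 T, 0 < D t := by
    by_contra hcon
    push Not at hcon
    obtain ⟨t₁, ht₁, hDt₁⟩ := hcon
    -- first zero
    have hD0 : 0 < D 0 := by
      simp only [hD, osc_zero]
      simpa using hpos
    set Z : Set ℝ := {t | t ∈ Icc 0 t₁ ∧ D t ≤ 0} with hZ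
    have hsub : Icc 0 t₁ ⊆ Icc 0 T := Icc_subset_Icc_right ht₁.2
    have hZclosed : IsClosed Z := by
      have : Z = Icc 0 t₁ ∩ D ⁻¹' (Iic 0) := by
        ext t; simp [hZ]
      rw [this]
      exact (hcontD.mono hsub).preimage_isClosed_of_isClosed isClosed_Icc isClosed_Iic
    have hZne : Z.Nonempty := ⟨t₁, ⟨ht₁.1, le_rfl⟩, hDt₁⟩
    have hZbdd : BddBelow Z := ⟨0, fun t ht => ht.1.1⟩
    set t₀ := sInf Z with ht₀
    have ht₀Z : t₀ ∈ Z := hZclosed.csInf_mem hZne hZbdd
    have hbefore : ∀ t, 0 ≤ t → t < t₀ → 0 < D t := by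
      intro t ht htt
      by_contra hle
      push Not at hle
      have : t ∈ Z := ⟨⟨ht, (htt.le.trans ht₀Z.1.2)⟩, hle⟩
      exact absurd (csInf_le hZbdd this) (not_le.2 htt)
    have ht₀pos : 0 < t₀ := by
      rcases ht₀Z.1.1.eq_or_lt with h | h
      · rw [← h] at ht₀Z
        exact absurd ht₀Z.2 (not_le.2 hD0)
      · exact h
    have ht₀mem : t₀ ∈ Icc 0 T := hsub ht₀Z.1
    have hDt₀ : D t₀ = 0 := by
      refine le_antisymm ht₀Z.2 ?_
      -- by continuity from the left
      have hcw : ContinuousWithinAt D (Ico 0 t₀) t₀ :=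
        (hcontD t₀ ht₀mem).mono (fun t ht => ⟨ht.1, ht.2.le.trans ht₀mem.2⟩)
      have hcl : t₀ ∈ closure (Ico (0 : ℝ) t₀) := by
        rw [closure_Ico ht₀pos.ne]
        exact ⟨ht₀pos.le, le_rfl⟩
      have hne' : (nhdsWithin t₀ (Ico (0 : ℝ) t₀)).NeBot := mem_closure_iff_nhdsWithin_neBot.1 hcl
      refine ge_of_tendsto hcw ?_
      filter_upwards [self_mem_nhdsWithin] with t ht
      exact (hbefore t ht.1 ht.2).le
    obtain ⟨hi1, hi2⟩ := idx_spec hlam ht₀pos
    set n := idx lam t₀ with hn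
    -- the robber is not on the centre at time `t₀` unless `osc t₀ i > 0`
    have hgi : 0 < g t₀ i := by
      by_contra hle
      push Not at hle
      have hgi0 : g t₀ i = 0 := le_antisymm hle ((hg.1 _ ht₀mem).1 i).1
      -- the latest excursion into leg `i` whose midpoint is before `t₀`
      obtain ⟨j, hj1, hj2⟩ : ∃ j : ℤ, n₀ + m * j ≤ n ∧ n < n₀ + m * j + m := by
        refine ⟨(n - n₀) / m, ?_, ?_⟩
        · have := Int.mul_ediv_self_le (x := n - n₀) (k := (m : ℤ)) (by exact_mod_cast hm.ne')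
          linarith
        · have := Int.lt_mul_ediv_self_add (x := n - n₀) (k := (m : ℤ)) (by exact_mod_cast hm)
          linarith
      -- choose an excursion index `q` into leg `i` with midpoint ≤ t₀ ≤ lam ^ (q + m)
      obtain ⟨q, hq, hq1, hq2⟩ : ∃ q : ℤ, e q = i ∧ (lam ^ q + lam ^ (q + 1)) / 2 < t₀ ∧
          t₀ ≤ lam ^ (q + m) := by
        by_cases hlast : (lam ^ (n₀ + m * j) + lam ^ (n₀ + m * j + 1)) / 2 < t₀
        · refine ⟨n₀ + m * j, hn₀ j, hlast, hi2.le.trans ?_⟩
          exact zpow_le_zpow_right₀ hlam.le (by omega)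
        · -- then `n = n₀ + m j` and the cop is on leg `i` going out or `t₀` is its start
          exfalso
          push Not at hlast
          have hnq : n = n₀ + m * j := by
            by_contra hne2
            have h1 : n₀ + m * j + 1 ≤ n := by omega
            have h2 : lam ^ (n₀ + m * j + 1) ≤ lam ^ n := zpow_le_zpow_right₀ hlam.le h1
            have h3 : lam ^ (n₀ + m * j) < lam ^ (n₀ + m * j + 1) :=
              (zpow_lt_zpow_iff_right₀ hlam).2 (by omega)
            linarith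
          -- the cop is on leg `i`, at depth `0` together with the robber
          have hon : osc lam s ℓ e t₀ i = 0 := by
            have : D t₀ = g t₀ i - osc lam s ℓ e t₀ i := rfl
            rw [hDt₀, hgi0] at this
            linarith
          have hei : e (idx lam t₀) = i := by rw [← hn, hnq]; exact hn₀ j
          have hoscz : osc lam s ℓ e t₀ = 0 := by
            funext l
            by_cases hl : l = i
            · rw [hl, hon]; rfl
            · have : l ≠ e (idx lam t₀) := by rw [hei]; exact hl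
              simp [osc, this]
          -- the robber is on the centre as well
          have hgz : g t₀ = 0 := by
            funext l
            by_cases hl : l = i
            · rw [hl, hgi0]; rfl
            · -- other coordinates vanish before `t₀`, hence at `t₀`
              have hz : ∀ t, 0 ≤ t → t < t₀ → g t l = 0 := by
                intro t ht htt
                have h1 := hbefore t ht htt
                have hmem : t ∈ Icc 0 T := ⟨ht, htt.le.trans ht₀mem.2⟩
                have h2 : 0 < g t i := by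
                  have : 0 ≤ osc lam s ℓ e t i := ((osc_mem hlam hs hℓ t).1 i).1
                  simp only [hD] at h1
                  linarith
                rcases (hg.1 t hmem).2 l i hl with h | h
                · exact h
                · linarith
              have hcontl : ContinuousWithinAt (fun t => g t l) (Ico 0 t₀) t₀ := by
                rw [Metric.continuousWithinAt_iff]
                intro ε hε
                refine ⟨ε, hε, fun a ha hab => ?_⟩
                rw [Real.dist_eq] at hab ⊢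
                calc |g a l - g t₀ l| ≤ starDist (g a) (g t₀) := coord_le_starDist _ _ _
                  _ ≤ 1 * |a - t₀| := hg.2 a ⟨ha.1, ha.2.le.trans ht₀mem.2⟩ t₀ ht₀mem
                  _ < ε := by rw [one_mul]; exact hab
              have hcl : t₀ ∈ closure (Ico (0 : ℝ) t₀) := by
                rw [closure_Ico ht₀pos.ne]
                exact ⟨ht₀pos.le, le_rfl⟩
              have hne' : (nhdsWithin t₀ (Ico (0 : ℝ) t₀)).NeBot :=
                mem_closure_iff_nhdsWithin_neBot.1 hcl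
              have hlim : Filter.Tendsto (fun t => g t l) (nhdsWithin t₀ (Ico (0 : ℝ) t₀))
                  (nhds 0) := by
                refine tendsto_const_nhds.congr' ?_
                filter_upwards [self_mem_nhdsWithin] with t ht
                exact (hz t ht.1 ht.2).symm
              exact tendsto_nhds_unique hcontl hlim
          exact havoid t₀ ht₀mem (by rw [hoscz, hgz])
      -- distance estimate
      set μ := (lam ^ q + lam ^ (q + 1)) / 2 with hμ
      have hqpos : (0 : ℝ) < lam ^ q := zpow_pos hlam0 q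
      have hq1pos : (0 : ℝ) < lam ^ (q + 1) := zpow_pos hlam0 _
      have hμpos : 0 < μ := by rw [hμ]; linarith
      have hμmem : μ ∈ Icc 0 T := ⟨hμpos.le, hq1.le.trans ht₀mem.2⟩
      have h1 := hfar q hq hμmem (hbefore μ hμpos.le hq1)
      have h2 := hg.2 μ hμmem t₀ ht₀mem
      have h3 : |g μ i - g t₀ i| ≤ 1 * |μ - t₀| := le_trans (coord_le_starDist _ _ _) h2
      rw [hgi0, sub_zero, one_mul] at h3
      have h3' : |μ - t₀| = t₀ - μ := by rw [abs_sub_comm, abs_of_pos (by linarith)]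
      rw [h3'] at h3
      have h4 : g μ i ≤ t₀ - μ := le_trans (le_abs_self _) h3
      have h5 : t₀ - μ ≤ (lam ^ m - (1 + lam) / 2) * lam ^ q := by
        have e1 : lam ^ (q + m) = lam ^ q * lam ^ m := by
          rw [zpow_add₀ hlam0.ne', zpow_natCast]
        have e2 : lam ^ (q + 1) = lam ^ q * lam := zpow_add_one₀ hlam0.ne' q
        have e3 : μ = lam ^ q * ((1 + lam) / 2) := by rw [hμ, e2]; ring
        rw [e1] at hq2
        rw [e3]
        nlinarith
      have h6 : (lam ^ m - (1 + lam) / 2) * lam ^ q ≤ s * (lam - 1) / 2 * lam ^ q :=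
        mul_le_mul_of_nonneg_right hlm hqpos.le
      linarith
    -- so the cop and the robber are on the same point of leg `i`
    have hoi : osc lam s ℓ e t₀ i = g t₀ i := by
      have : D t₀ = g t₀ i - osc lam s ℓ e t₀ i := rfl
      rw [hDt₀] at this
      linarith
    apply havoid t₀ ht₀mem
    funext l
    by_cases hl : l = i
    · rw [hl, hoi]
    · have h1 : g t₀ l = 0 := by
        rcases (hg.1 t₀ ht₀mem).2 l i hl with h | h
        · exact h
        · linarith
      have h2 : osc lam s ℓ e t₀ l = 0 := by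
        rcases (osc_mem (e := e) hlam hs hℓ t₀).2 l i hl with h | h
        · exact h
        · rw [hoi] at h; linarith
      rw [h1, h2]
  -- the final excursion reaches the end of the leg
  obtain ⟨j, hj1, hj2⟩ : ∃ j : ℤ, M ≤ n₀ + m * j ∧ n₀ + m * j < M + m := by
    refine ⟨-((n₀ - M) / m), ?_, ?_⟩
    · have := Int.mul_ediv_self_le (x := n₀ - M) (k := (m : ℤ)) (by exact_mod_cast hm.ne')
      linarith
    · have := Int.lt_mul_ediv_self_add (x := n₀ - M) (k := (m : ℤ)) (by exact_mod_cast hm)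
      linarith
  set q := n₀ + m * j with hq
  have hqpos : (0 : ℝ) < lam ^ q := zpow_pos hlam0 q
  have hlt : lam ^ q < lam ^ (q + 1) := (zpow_lt_zpow_iff_right₀ hlam).2 (by omega)
  have hmem : (lam ^ q + lam ^ (q + 1)) / 2 ∈ Icc 0 T := by
    refine ⟨by linarith, ?_⟩
    have : lam ^ (q + 1) ≤ lam ^ (M + m) := zpow_le_zpow_right₀ hlam.le (by omega)
    linarith
  have h1 := hfar q (hn₀ j) hmem (hDpos _ hmem)
  have h2 := ((hg.1 _ hmem).1 i).2
  have h3 : s * (lam - 1) / 2 * lam ^ M ≤ s * (lam - 1) / 2 * lam ^ q := by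
    apply mul_le_mul_of_nonneg_left (zpow_le_zpow_right₀ hlam.le hj1)
    have : 0 < lam - 1 := by linarith
    positivity
  linarith

end Osc

/-! ### The full strategy -/

lemma starDist_triangle {k : ℕ} (x y z : Fin k → ℝ) :
    starDist x z ≤ starDist x y + starDist y z := by
  unfold starDist
  rw [← Finset.sum_add_distrib]
  exact Finset.sum_le_sum fun i _ => abs_sub_le _ _ _

/-- The legs served in the second half. -/
def ePos (k m : ℕ) (hm : 0 < m) (hmk : m ≤ k) (n : ℤ) : Fin k :=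
  ⟨(n % (m : ℤ)).toNat, by
    have h1 := Int.emod_nonneg n (b := (m : ℤ)) (by exact_mod_cast hm.ne')
    have h2 := Int.emod_lt_of_pos n (b := (m : ℤ)) (by exact_mod_cast hm)
    omega⟩

/-- The legs served in the first half. -/
def eNeg (k m : ℕ) (hk : 0 < k) (n : ℤ) : Fin k :=
  ⟨min (m + (n % (m : ℤ)).toNat) (k - 1), by omega⟩

lemma ePos_spec {k m : ℕ} (hm : 0 < m) (hmk : m ≤ k) (i : Fin k) (hi : (i : ℕ) < m) (j : ℤ) :
    ePos k m hm hmk (((i : ℕ) : ℤ) + m * j) = i := by
  apply Fin.ext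
  show ((((i : ℕ) : ℤ) + m * j) % (m : ℤ)).toNat = i
  rw [Int.add_mul_emod_self_left, Int.emod_eq_of_lt (by omega) (by exact_mod_cast hi)]
  simp

lemma eNeg_spec {k m : ℕ} (hk : 0 < k) (hkm : k ≤ 2 * m) (i : Fin k) (hi : m ≤ (i : ℕ)) (j : ℤ) :
    eNeg k m hk ((((i : ℕ) - m : ℕ) : ℤ) + m * j) = i := by
  apply Fin.ext
  have hlt := i.2
  show min (m + (((((i : ℕ) - m : ℕ) : ℤ) + m * j) % (m : ℤ)).toNat) (k - 1) = i
  rw [Int.add_mul_emod_self_left, Int.emod_eq_of_lt (by omega) (by
    have : (i : ℕ) - m < m := by omega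
    exact_mod_cast this)]
  simp only [Int.toNat_natCast]
  omega

/-- **Upper bound.** At every speed above `2⌈k/2⌉ - 1` the blind cop wins on the star with `k`
legs. -/
theorem copWins_of_lt (k : ℕ) (hk : 0 < k) (ℓ : Fin k → ℝ) (hℓ : ∀ i, 0 < ℓ i) (s : ℝ)
    (hs : 2 * (((k + 1) / 2 : ℕ) : ℝ) - 1 < s) : CopWins k ℓ s := by
  set m : ℕ := (k + 1) / 2 with hmdef
  have hm : 0 < m := by omega
  have hmk : m ≤ k := by omega
  have hkm : k ≤ 2 * m := by omega
  have hm1 : (1 : ℝ) ≤ m := by exact_mod_cast hm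
  have hs0 : 0 < s := by linarith
  -- the growth factor
  obtain ⟨lam, hlam, hlamm⟩ : ∃ lam : ℝ, 1 < lam ∧ (m : ℝ) * lam ^ m < (s + 1) / 2 := by
    have hcont : Filter.Tendsto (fun x : ℝ => (m : ℝ) * x ^ m) (nhdsWithin 1 (Ioi 1))
        (nhds ((m : ℝ) * 1 ^ m)) :=
      ((continuous_const.mul (continuous_pow m)).tendsto 1).mono_left nhdsWithin_le_nhds
    have hlt : (m : ℝ) * 1 ^ m < (s + 1) / 2 := by rw [one_pow, mul_one]; linarith
    have h1 := hcont.eventually (gt_mem_nhds hlt)
    have h2 : ∀ᶠ x : ℝ in nhdsWithin 1 (Ioi 1), x ∈ Ioi (1 : ℝ) := self_mem_nhdsWithin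
    obtain ⟨x, hx1, hx2⟩ := (h1.and h2).exists
    exact ⟨x, hx2, hx1⟩
  have hlam0 : 0 < lam := by linarith
  have hlm : lam ^ m - (1 + lam) / 2 ≤ s * (lam - 1) / 2 := by
    have h1 : lam ^ m - 1 ≤ (lam - 1) * (m * lam ^ m) := by
      have h2 : lam ^ m - 1 = (∑ i ∈ Finset.range m, lam ^ i) * (lam - 1) :=
        (geom_sum_mul lam m).symm
      have h3 : ∑ i ∈ Finset.range m, lam ^ i ≤ ∑ i ∈ Finset.range m, lam ^ m :=
        Finset.sum_le_sum fun i hi => pow_le_pow_right₀ hlam.le (Finset.mem_range.1 hi).le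
      rw [Finset.sum_const, Finset.card_range, nsmul_eq_mul] at h3
      rw [h2, mul_comm]
      exact mul_le_mul_of_nonneg_left h3 (by linarith)
    have h4 : (lam - 1) * (m * lam ^ m) ≤ (lam - 1) * ((s + 1) / 2) :=
      mul_le_mul_of_nonneg_left hlamm.le (by linarith)
    nlinarith
  -- the number of excursions
  obtain ⟨N, hN⟩ : ∃ N : ℕ, (∑ i, ℓ i) / (s * (lam - 1) / 2) < lam ^ N :=
    pow_unbounded_of_one_lt _ hlam
  have hc : 0 < s * (lam - 1) / 2 := by
    have : 0 < lam - 1 := by linarith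
    positivity
  have hM : ∀ i, ℓ i ≤ s * (lam - 1) / 2 * lam ^ (N : ℤ) := by
    intro i
    have h1 : ℓ i ≤ ∑ j, ℓ j :=
      Finset.single_le_sum (f := ℓ) (fun j _ => (hℓ j).le) (Finset.mem_univ i)
    rw [div_lt_iff₀ hc] at hN
    rw [zpow_natCast]
    linarith
  set T₁ : ℝ := lam ^ ((N : ℤ) + m) with hT₁
  have hT₁pos : 0 < T₁ := zpow_pos hlam0 _
  set e₁ := ePos k m hm hmk with he₁
  set e₂ := eNeg k m hk with he₂
  refine ⟨2 * T₁, by linarith,
    fun u => if T₁ ≤ u then osc lam s ℓ e₁ (u - T₁) else osc lam s ℓ e₂ (T₁ - u), ?_, ?_⟩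
  · refine ⟨fun t _ => ?_, fun t _ t' _ => ?_⟩
    · beta_reduce
      split_ifs
      · exact osc_mem hlam hs0 hℓ _
      · exact osc_mem hlam hs0 hℓ _
    · beta_reduce
      by_cases h1 : T₁ ≤ t
      · by_cases h2 : T₁ ≤ t'
        · rw [if_pos h1, if_pos h2]
          have := osc_lipschitz (e := e₁) hlam hs0 hℓ (t := t - T₁) (t' := t' - T₁)
            (by linarith) (by linarith)
          rwa [show t - T₁ - (t' - T₁) = t - t' by ring] at this
        · rw [if_pos h1, if_neg h2]
          push Not at h2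
          refine le_trans (starDist_triangle _ 0 _) ?_
          have a1 := osc_lipschitz (e := e₁) hlam hs0 hℓ (t := t - T₁) (t' := 0)
            (by linarith) le_rfl
          have a2 := osc_lipschitz (e := e₂) hlam hs0 hℓ (t := 0) (t' := T₁ - t')
            le_rfl (by linarith)
          rw [osc_zero, abs_of_nonneg (by linarith)] at a1
          rw [osc_zero, abs_of_nonpos (by linarith)] at a2
          rw [abs_of_nonneg (by linarith)]
          nlinarith
      · by_cases h2 : T₁ ≤ t'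
        · rw [if_neg h1, if_pos h2]
          push Not at h1
          refine le_trans (starDist_triangle _ 0 _) ?_
          have a1 := osc_lipschitz (e := e₂) hlam hs0 hℓ (t := T₁ - t) (t' := 0)
            (by linarith) le_rfl
          have a2 := osc_lipschitz (e := e₁) hlam hs0 hℓ (t := 0) (t' := t' - T₁)
            le_rfl (by linarith)
          rw [osc_zero, abs_of_nonneg (by linarith)] at a1
          rw [osc_zero, abs_of_nonpos (by linarith)] at a2
          rw [abs_of_nonpos (by linarith)]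
          nlinarith
        · rw [if_neg h1, if_neg h2]
          push Not at h1 h2
          have := osc_lipschitz (e := e₂) hlam hs0 hℓ (t := T₁ - t) (t' := T₁ - t')
            (by linarith) (by linarith)
          rwa [show T₁ - t - (T₁ - t') = -(t - t') by ring, abs_neg] at this
  · intro g hg
    by_contra hcon
    push Not at hcon
    -- the two halves of the robber's motion
    have hg₁ : IsMotion k ℓ 1 T₁ (fun t => g (T₁ + t)) := by
      refine ⟨fun t ht => hg.1 _ ⟨by linarith [ht.1], by linarith [ht.2]⟩, fun t ht t' ht' => ?_⟩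
      have := hg.2 (T₁ + t) ⟨by linarith [ht.1], by linarith [ht.2]⟩ (T₁ + t')
        ⟨by linarith [ht'.1], by linarith [ht'.2]⟩
      rwa [show T₁ + t - (T₁ + t') = t - t' by ring] at this
    have hg₂ : IsMotion k ℓ 1 T₁ (fun t => g (T₁ - t)) := by
      refine ⟨fun t ht => hg.1 _ ⟨by linarith [ht.2], by linarith [ht.1]⟩, fun t ht t' ht' => ?_⟩
      have := hg.2 (T₁ - t) ⟨by linarith [ht.2], by linarith [ht.1]⟩ (T₁ - t')
        ⟨by linarith [ht'.2], by linarith [ht'.1]⟩
      rwa [show T₁ - t - (T₁ - t') = -(t - t') by ring, abs_neg] at this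
    have hav₁ : ∀ t ∈ Icc 0 T₁, osc lam s ℓ e₁ t ≠ g (T₁ + t) := by
      intro t ht
      have := hcon (T₁ + t) ⟨by linarith [ht.1], by linarith [ht.2]⟩
      rwa [if_pos (by linarith [ht.1]), show T₁ + t - T₁ = t by ring] at this
    have hav₂ : ∀ t ∈ Icc 0 T₁, osc lam s ℓ e₂ t ≠ g (T₁ - t) := by
      intro t ht
      have := hcon (T₁ - t) ⟨by linarith [ht.2], by linarith [ht.1]⟩
      rcases ht.1.eq_or_lt with h0 | h0
      · rw [← h0] at this ⊢
        rw [if_pos (by linarith), show T₁ - 0 - T₁ = 0 by ring] at this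
        rw [osc_zero] at this ⊢
        exact this
      · rwa [if_neg (by linarith), show T₁ - (T₁ - t) = t by ring] at this
    have hzero : g T₁ = 0 := by
      funext i
      by_cases hi : (i : ℕ) < m
      · have := served hlam hs0 hℓ hm hlm (n₀ := ((i : ℕ) : ℤ))
          (fun j => ePos_spec hm hmk i hi j) (hM i) (T := T₁) le_rfl hg₁ hav₁
        simpa using this
      · have := served hlam hs0 hℓ hm hlm (n₀ := (((i : ℕ) - m : ℕ) : ℤ))
          (fun j => eNeg_spec hk hkm i (not_lt.1 hi) j) (hM i) (T := T₁) le_rfl hg₂ hav₂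
        simpa using this
    have h0 := hav₁ 0 ⟨le_rfl, hT₁pos.le⟩
    rw [osc_zero, add_zero, hzero] at h0
    exact h0 rfl

/-- **Main result.**  On the star with `k ≥ 1` legs of arbitrary positive lengths the blind cop wins
at every speed `s > 2⌈k/2⌉ - 1`; in particular, for every `k ≥ 4` and all leg lengths he wins at
speed `2k - 3`, so that the following assertion is false: for every `k ≥ 3` and all positive leg
lengths the cop has a winning strategy at every speed `s > 2k - 3` and at no speed `s ≤ 2k - 3`. -/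
theorem result :
    (∀ k : ℕ, 1 ≤ k → ∀ ℓ : Fin k → ℝ, (∀ i, 0 < ℓ i) → ∀ s : ℝ,
      2 * (((k + 1) / 2 : ℕ) : ℝ) - 1 < s → CopWins k ℓ s) ∧
    (∀ k : ℕ, 4 ≤ k → ∀ ℓ : Fin k → ℝ, (∀ i, 0 < ℓ i) → CopWins k ℓ (2 * k - 3)) ∧
    ¬ (∀ k : ℕ, 3 ≤ k → ∀ ℓ : Fin k → ℝ, (∀ i, 0 < ℓ i) →
      (∀ s : ℝ, 2 * (k : ℝ) - 3 < s → CopWins k ℓ s) ∧
      (∀ s : ℝ, 0 < s → s ≤ 2 * (k : ℝ) - 3 → ¬ CopWins k ℓ s)) := by
  have h1 : ∀ k : ℕ, 1 ≤ k → ∀ ℓ : Fin k → ℝ, (∀ i, 0 < ℓ i) → ∀ s : ℝ,
      2 * (((k + 1) / 2 : ℕ) : ℝ) - 1 < s → CopWins k ℓ s :=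
    fun k hk ℓ hℓ s hs => copWins_of_lt k hk ℓ hℓ s hs
  have h2 : ∀ k : ℕ, 4 ≤ k → ∀ ℓ : Fin k → ℝ, (∀ i, 0 < ℓ i) → CopWins k ℓ (2 * k - 3) := by
    intro k hk ℓ hℓ
    refine h1 k (by omega) ℓ hℓ _ ?_
    have h3 : (k + 1) / 2 + 2 ≤ k := by omega
    have h4 : ((((k + 1) / 2 : ℕ) : ℝ)) + 2 ≤ k := by exact_mod_cast h3
    linarith
  refine ⟨h1, h2, fun h => ?_⟩
  have h5 := (h 4 (by norm_num) (fun _ => 1) (fun _ => one_pos)).2 (2 * ((4 : ℕ) : ℝ) - 3)
    (by norm_num) le_rfl
  exact h5 (h2 4 le_rfl (fun _ => 1) (fun _ => one_pos))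

end Pool.Agent.Results.MP_29e9a5_co.StarSpeed
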